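import Pool.Agent.Q12.CM.Prd

/-!
# Almost all special points of arbitrary products of Shimura varieties

`S 1, ..., S n` are components of Shimura varieties (of different Shimura data, possibly) with their
invariant probability measures `μ j`.  The special points of `S j` come in packets: a packet is a set of
special points on which a finite abelian group `G j` (a quotient of `T j (𝔸_f)` for a torus `T j`) acts simply
transitively; after the choice of a point it is a map `x j : G j → S j`.  The points
`(x 1 (a 1), ..., x n (a n))`, `a ∈ G 1 × ... × G n`, are special points of the component `S 1 × ... × S n` of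
the Shimura variety of the product datum.  Their Galois orbits are the orbits of a subgroup `B` of
`G 1 × ... × G n` (the image of the reciprocity maps), or unions of a bounded number of translates of such
orbits and of the orbits of points with some of the `a j` replaced by their inverses.  The projections of `B`
to the factors `G j` are the images of the single reciprocity maps; the group `B` itself may be very small
in the product, in particular for tori which are related to each other.

The theorem: if the sequences of packets are equidistributed in the factors `S j` with twists by characters,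
then, for all subgroups `B` whose projections to the factors have bounded index, the `B`-orbits of almost
all points of the products of the packets are equidistributed in `S 1 × ... × S n`.
-/

set_option autoImplicit false

namespace Pool.Agent.Results.MP_9177b7_ag.AllProducts

open MeasureTheory Filter Pool.Agent.Q12.CM
open scoped BoundedContinuousFunction

/-- The twisted equidistribution of the packets `x i : G i → S` in `S`: the averages of `χ(g) f(x(g))`
over the packets tend to `∫ f dμ` for `χ = 1` and to `0` for `χ ≠ 1`, uniformly in the characters `χ`. -/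
def Twisted {S : Type} [TopologicalSpace S] [MeasurableSpace S] (μ : Measure S) (G : ℕ → Type)
    [∀ i, CommGroup (G i)] [∀ i, Fintype (G i)] (x : ∀ i, G i → S) : Prop :=
  ∀ f : S →ᵇ ℂ, ∀ ε : ℝ, 0 < ε → ∀ᶠ i in atTop, ∀ χ : G i →* ℂ,
    (χ = 1 → ‖(∑ g, χ g * f (x i g)) / Fintype.card (G i) - ∫ s, f s ∂μ‖ ≤ ε) ∧
    (χ ≠ 1 → ‖(∑ g, χ g * f (x i g)) / Fintype.card (G i)‖ ≤ ε)

section

variable {n : ℕ} {S : Fin n → Type} [∀ j, TopologicalSpace (S j)] [∀ j, MeasurableSpace (S j)]

/-- The projection of the subgroup `B` of the product to the `j`-th factor. -/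
def projection {G : Fin n → Type} [∀ j, CommGroup (G j)] (B : Subgroup (∀ j, G j)) (j : Fin n) :
    Subgroup (G j) :=
  B.map (Pi.evalMonoidHom G j)

/-- The average of `f 1 ⊗ ... ⊗ f n` over the points with the coordinates
`x j (y j * b j * (a j) ^ (s j))`, `b ∈ B`. -/
noncomputable def orbitMean {G : Fin n → Type} [∀ j, CommGroup (G j)] (f : ∀ j, S j →ᵇ ℂ)
    (x : ∀ j, G j → S j) (B : Subgroup (∀ j, G j)) (y : ∀ j, G j) (s : Fin n → ℤˣ) (a : ∀ j, G j) : ℂ :=
  (∑ᶠ b : B, ∏ j, f j (x j (y j * b.1 j * a j ^ (s j : ℤ)))) / Nat.card B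

/-- The integral of `f 1 ⊗ ... ⊗ f n` for the product measure. -/
noncomputable def expected (μ : ∀ j, Measure (S j)) (f : ∀ j, S j →ᵇ ℂ) : ℂ := ∏ j, ∫ s, f j s ∂(μ j)

/-- Almost all orbits of the points of the products of the packets are equidistributed, for all subgroups
whose projections have index at most `M`, all translates `y` and all signs `s`. -/
def AlmostAllPoints (μ : ∀ j, Measure (S j)) (G : Fin n → ℕ → Type) [∀ j i, CommGroup (G j i)]
    [∀ j i, Fintype (G j i)] (x : ∀ j i, G j i → S j) : Prop :=
  ∀ (M : ℕ) (f : ∀ j, S j →ᵇ ℂ) (ε : ℝ), 0 < ε → ∀ᶠ i in atTop, ∀ B : Subgroup (∀ j, G j i),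
    (∀ j, (projection B j).index ≤ M) → ∀ (y : ∀ j, G j i) (s : Fin n → ℤˣ),
      ({a : ∀ j, G j i | ε < ‖orbitMean f (fun j => x j i) B y s a - expected μ f‖}.ncard : ℝ) ≤
        ε * ∏ j, (Fintype.card (G j i) : ℝ)

end

/-- **Almost all special points of products of different Shimura varieties.**  Let `S j`, `j < n`, be
spaces with probability measures `μ j` and `x j i : G j i → S j`, `i = 0, 1, ...`, sequences of packets which
are equidistributed with twists by characters.  Then for all subgroups of the products of the groups `G j i`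
whose projections to the factors have bounded index, the orbits of almost all points of the products of the
packets are equidistributed in the product of the `S j`. -/
theorem result {n : ℕ} {S : Fin n → Type} [∀ j, TopologicalSpace (S j)] [∀ j, MeasurableSpace (S j)]
    [∀ j, BorelSpace (S j)] (μ : ∀ j, Measure (S j)) [∀ j, IsProbabilityMeasure (μ j)]
    (G : Fin n → ℕ → Type) [∀ j i, CommGroup (G j i)] [∀ j i, Fintype (G j i)]
    (x : ∀ j i, G j i → S j) (h : ∀ j, Twisted (μ j) (G j) (x j)) : AlmostAllPoints μ G x := by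
  classical
  intro M f ε hε
  obtain ⟨C, hC1, hC, hCm⟩ : ∃ C : ℝ, 1 ≤ C ∧ (∀ j s, ‖f j s‖ ≤ C) ∧ ∀ j, ‖∫ s, f j s ∂(μ j)‖ ≤ C := by
    refine ⟨1 + ∑ j, (‖f j‖ + ‖∫ s, f j s ∂(μ j)‖), ?_, fun j s => ?_, fun j => ?_⟩
    · have : 0 ≤ ∑ j, (‖f j‖ + ‖∫ s, f j s ∂(μ j)‖) := Finset.sum_nonneg fun j _ => by positivity
      linarith
    · have h1 := Finset.single_le_sum (f := fun j => ‖f j‖ + ‖∫ s, f j s ∂(μ j)‖)
        (fun i _ => by positivity) (Finset.mem_univ j)
      have h2 := (f j).norm_coe_le_norm s
      have h4 := norm_nonneg (∫ s, f j s ∂(μ j))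
      linarith
    · have h1 := Finset.single_le_sum (f := fun j => ‖f j‖ + ‖∫ s, f j s ∂(μ j)‖)
        (fun i _ => by positivity) (Finset.mem_univ j)
      have h3 := norm_nonneg (f j)
      linarith
  obtain ⟨w, hw0, hw⟩ : ∃ w : ℝ, 0 < w ∧ (n : ℝ) ^ 2 * (M * w * (2 * C) ^ (2 * n)) / ε ^ 2 ≤ ε := by
    have hp : 0 < (n : ℝ) ^ 2 * (M * (2 * C) ^ (2 * n)) + 1 := by positivity
    refine ⟨ε ^ 3 / ((n : ℝ) ^ 2 * (M * (2 * C) ^ (2 * n)) + 1), by positivity, ?_⟩
    rw [div_le_iff₀ (by positivity)]
    calc (n : ℝ) ^ 2 * (M * (ε ^ 3 / ((n : ℝ) ^ 2 * (M * (2 * C) ^ (2 * n)) + 1)) * (2 * C) ^ (2 * n))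
        = ε ^ 3 * (((n : ℝ) ^ 2 * (M * (2 * C) ^ (2 * n))) /
            ((n : ℝ) ^ 2 * (M * (2 * C) ^ (2 * n)) + 1)) := by ring
      _ ≤ ε ^ 3 * 1 := by
          refine mul_le_mul_of_nonneg_left ?_ (by positivity)
          rw [div_le_one hp]
          linarith
      _ = ε * ε ^ 2 := by ring
  have h1 : ∀ᶠ i in atTop, ∀ j, ∀ χ : G j i →* ℂ,
      ‖W χ fun g => f j (x j i g) - ∫ s, f j s ∂(μ j)‖ ≤ w := by
    rw [eventually_all]
    intro j
    filter_upwards [h j (f j) w hw0] with i hi χ
    rw [W_sub]
    obtain ⟨h2, h3⟩ := hi χ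
    split_ifs with hχ
    · exact h2 hχ
    · rw [sub_zero]
      exact h3 hχ
  filter_upwards [h1] with i hi B hB y s
  have h2 := P_count (F := fun j g => f j (x j i g)) (m := fun j => ∫ s, f j s ∂(μ j)) hC1
    (fun j g => hC j _) hCm B hB hi hε y s
  refine le_trans (le_of_eq ?_) (h2.trans ?_)
  · rfl
  · have : (0 : ℝ) ≤ ∏ j, (Fintype.card (G j i) : ℝ) := by positivity
    gcongr

end Pool.Agent.Results.MP_9177b7_ag.AllProducts
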