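import Pool.Agent.Q12.CM.Mix

/-!
# Galois orbits of special points of tori which split at one prime

`S` is a component of a Shimura variety of level `K = K^p K_p` and `Y` its `p`-adic cover (of level `K^p`),
a space with a continuous action of `G(ℚ_p)` and with the invariant probability measure `μ`; `proj : Y → S`
is the projection.  For a torus `T` which splits at `p` the special points of `S` which belong to `T` come in
packets: a finite abelian group `G` (a quotient of `T(𝔸_f)`) acts simply transitively on a packet, and the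
packet is the image of the orbit `X : Ω → Y` of the compact group
`Ω = T(ℚ) \ T(𝔸_f) / (K^p ∩ T(𝔸_f^p))` in `Y`.  After a translation by an element of `K_p` the
multiplication by an element of `T(ℚ_p)` becomes on `Y` the action `a` of a fixed element of `G(ℚ_p)`, which
generates an unbounded group and is mixing for `μ` (Howe - Moore).  The Galois orbits are the orbits of a
subgroup `B` of `G` (the image of the reciprocity map) or, over smaller fields, unions of translates of such
orbits and of their inverses.

The theorem: if the (whole, untwisted) packets are equidistributed in `Y` and `a` is weakly mixing, then in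
`S` all orbits of all subgroups of bounded index are equidistributed, the packets are equidistributed in `S`
with twists by all characters, uniformly, and the orbits of almost all special points in all powers `S^n` are
equidistributed.
-/

set_option autoImplicit false

namespace Pool.Agent.Results.MP_9177b7_ag.OneSplitPrime

open MeasureTheory Filter Topology Pool.Agent.Q12.CM
open scoped BoundedContinuousFunction ComplexConjugate

section

variable {Y S : Type} [TopologicalSpace Y] [MeasurableSpace Y] [TopologicalSpace S] [MeasurableSpace S]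

/-- The map `a` is weakly mixing for `μ`, tested on bounded continuous functions. -/
def WeaklyMixing (μ : Measure Y) (a : Y → Y) : Prop :=
  ∀ F : Y →ᵇ ℂ, Tendsto (fun k : ℕ => (∑ l ∈ Finset.range k,
    ‖∫ y, F (a^[l] y) * conj (F y) ∂μ - (∫ y, F y ∂μ) * conj (∫ y, F y ∂μ)‖) / k) atTop (𝓝 0)

/-- A lift of the packet `x : G → S` to `Y`: a map `X : Ω → Y` from a probability space `(Ω, P)` with a
map `q : Ω → G` with uniform distribution such that `proj (X ω) = x (q ω)`, and a measure-preserving map `t`
of `Ω` which corresponds to `a` in `Y` and to the multiplication by `c` in `G`. -/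
structure Lift (a : Y → Y) (proj : Y → S) {G : Type} [CommGroup G] [Fintype G] (x : G → S) where
  /-- the compact group -/
  Ω : Type
  [meas : MeasurableSpace Ω]
  /-- its Haar measure -/
  P : Measure Ω
  [prob : IsProbabilityMeasure P]
  /-- the orbit map -/
  X : Ω → Y
  /-- the multiplication by an element -/
  t : Ω → Ω
  /-- the projection to the finite group -/
  q : Ω → G
  /-- the image of the element -/
  c : G
  measurable : Measurable X
  preserves : MeasurePreserving t P P
  fibre : ∀ g, MeasurableSet (q ⁻¹' {g})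
  uniform : ∀ g, P.real (q ⁻¹' {g}) = 1 / Fintype.card G
  shift : ∀ ω, X (t ω) = a (X ω)
  factor : ∀ ω, q (t ω) = c * q ω
  proj_eq : ∀ ω, proj (X ω) = x (q ω)

attribute [instance] Lift.meas Lift.prob

/-- The lifted packets are equidistributed in `Y` (no twists, no subgroups). -/
def Equidistributed (μ : Measure Y) {a : Y → Y} {proj : Y → S} {G : ℕ → Type} [∀ i, CommGroup (G i)]
    [∀ i, Fintype (G i)] {x : ∀ i, G i → S} (L : ∀ i, Lift a proj (x i)) : Prop :=
  ∀ F : Y →ᵇ ℂ, Tendsto (fun i => ∫ ω, F ((L i).X ω) ∂(L i).P) atTop (𝓝 (∫ y, F y ∂μ))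

/-- All orbits of all subgroups of index at most `M` are equidistributed in `S`. -/
def EveryOrbit (μ : Measure S) (G : ℕ → Type) [∀ i, CommGroup (G i)] [∀ i, Fintype (G i)]
    (x : ∀ i, G i → S) : Prop :=
  ∀ (M : ℕ) (f : S →ᵇ ℂ) (ε : ℝ), 0 < ε → ∀ᶠ i in atTop, ∀ B : Subgroup (G i), B.index ≤ M → ∀ y : G i,
    ‖(∑ᶠ b : B, f (x i (y * b))) / Nat.card B - ∫ s, f s ∂μ‖ ≤ ε

/-- The twisted equidistribution of the packets `x i : G i → S` in `S`: the averages of `χ(g) f(x(g))`
over the packets tend to `∫ f dμ` for `χ = 1` and to `0` for `χ ≠ 1`, uniformly in the characters `χ`. -/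
def Twisted (μ : Measure S) (G : ℕ → Type) [∀ i, CommGroup (G i)] [∀ i, Fintype (G i)]
    (x : ∀ i, G i → S) : Prop :=
  ∀ f : S →ᵇ ℂ, ∀ ε : ℝ, 0 < ε → ∀ᶠ i in atTop, ∀ χ : G i →* ℂ,
    (χ = 1 → ‖(∑ g, χ g * f (x i g)) / Fintype.card (G i) - ∫ s, f s ∂μ‖ ≤ ε) ∧
    (χ ≠ 1 → ‖(∑ g, χ g * f (x i g)) / Fintype.card (G i)‖ ≤ ε)

/-- The average of `f 1 ⊗ ... ⊗ f n` over the points `(x (y * b * a 1), ..., x (y * b * a n))`, `b ∈ B`. -/
noncomputable def orbitMean {G : Type} [CommGroup G] {n : ℕ} (f : Fin n → S →ᵇ ℂ) (x : G → S)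
    (B : Subgroup G) (y : G) (a : Fin n → G) : ℂ :=
  (∑ᶠ b : B, ∏ j, f j (x (y * b * a j))) / Nat.card B

/-- The integral of `f 1 ⊗ ... ⊗ f n` for the product measure. -/
noncomputable def expected {n : ℕ} (μ : Measure S) (f : Fin n → S →ᵇ ℂ) : ℂ := ∏ j, ∫ s, f j s ∂μ

/-- Almost all orbits of the special points in all powers `S^n` are equidistributed, for all subgroups of
index at most `M`, all translates and the inverses. -/
def AlmostAllPoints (μ : Measure S) (G : ℕ → Type) [∀ i, CommGroup (G i)] [∀ i, Fintype (G i)]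
    (x : ∀ i, G i → S) : Prop :=
  ∀ (n M : ℕ) (f : Fin n → S →ᵇ ℂ) (ε : ℝ), 0 < ε → ∀ᶠ i in atTop, ∀ B : Subgroup (G i), B.index ≤ M →
    ({a : Fin n → G i | ∃ y : G i, ε < ‖orbitMean f (x i) B y a - expected μ f‖ ∨
      ε < ‖orbitMean f (x i) B y (fun j => (a j)⁻¹) - expected μ f‖}.ncard : ℝ) ≤
      ε * (Fintype.card (G i) : ℝ) ^ n

end

theorem orbitMean_eq {S : Type} [TopologicalSpace S] {G : Type} [CommGroup G] {n : ℕ}
    (f : Fin n → S →ᵇ ℂ) (x : G → S) (B : Subgroup G) (y : G) (a : Fin n → G) :
    orbitMean f x B y a = ES (fun j g => f j (x g)) B (fun j => y * a j) := by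
  unfold orbitMean ES
  congr 1
  refine finsum_congr fun b => Finset.prod_congr rfl fun j _ => ?_
  rw [← mul_assoc, mul_comm y]

/-- **Equidistribution of Galois orbits from one split prime.**  Let `Y → S` be continuous, `μ` a probability
measure on `Y`, `a` a continuous weakly mixing measure-preserving map of `Y`, and `x i : G i → S` a
sequence of packets with lifts to `Y`.  If the lifts are equidistributed in `Y`, then in `S` (with the image
of `μ`) all orbits of all subgroups of bounded index are equidistributed, the packets are equidistributed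
with all twists, uniformly, and so are the orbits of almost all points of the packets in all powers
`S^n`. -/
theorem result {Y S : Type} [TopologicalSpace Y] [MeasurableSpace Y] [BorelSpace Y]
    [TopologicalSpace S] [MeasurableSpace S] [BorelSpace S] (μ : Measure Y) [IsProbabilityMeasure μ]
    (a : Y → Y) (ha : Continuous a) (hμ : MeasurePreserving a μ μ) (hmix : WeaklyMixing μ a)
    (proj : Y → S) (hproj : Continuous proj) (G : ℕ → Type) [∀ i, CommGroup (G i)]
    [∀ i, Fintype (G i)] (x : ∀ i, G i → S) (L : ∀ i, Lift a proj (x i)) (hL : Equidistributed μ L) :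
    EveryOrbit (μ.map proj) G x ∧ Twisted (μ.map proj) G x ∧ AlmostAllPoints (μ.map proj) G x := by
  classical
  have hprob : IsProbabilityMeasure (μ.map proj) :=
    Measure.isProbabilityMeasure_map hproj.measurable.aemeasurable
  have hint : ∀ f : S →ᵇ ℂ, ∫ s, f s ∂(μ.map proj) = ∫ y, f (proj y) ∂μ := fun f =>
    integral_map hproj.measurable.aemeasurable f.continuous.measurable.aestronglyMeasurable
  have hL' : ∀ i, Lifts a proj (x i) (L i).P (L i).X (L i).t (L i).q (L i).c := fun i =>
    ⟨(L i).measurable, (L i).preserves, (L i).fibre, (L i).uniform, (L i).shift, (L i).factor,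
      (L i).proj_eq⟩
  have hW : ∀ f : S →ᵇ ℂ, ∀ ε : ℝ, 0 < ε → ∀ᶠ i in atTop, ∀ χ : G i →* ℂ,
      ‖W χ fun g => f (x i g) - ∫ s, f s ∂(μ.map proj)‖ ≤ ε := by
    intro f ε hε
    rw [hint]
    exact twisted_of_mixing ha hμ hmix hproj hL' hL f hε
  have hT : Twisted (μ.map proj) G x := by
    intro f ε hε
    filter_upwards [hW f ε hε] with i hi χ
    have h1 := hi χ
    rw [W_sub] at h1
    refine ⟨fun hχ => ?_, fun hχ => ?_⟩
    · rw [if_pos hχ] at h1
      exact h1
    · rw [if_neg hχ, sub_zero] at h1
      exact h1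
  have hA : AlmostAllPoints (μ.map proj) G x := by
    intro n M f ε hε
    obtain ⟨C, hC1, hC, hCm⟩ : ∃ C : ℝ, 1 ≤ C ∧ (∀ j s, ‖f j s‖ ≤ C) ∧
        ∀ j, ‖∫ s, f j s ∂(μ.map proj)‖ ≤ C := by
      refine ⟨1 + ∑ j, (‖f j‖ + ‖∫ s, f j s ∂(μ.map proj)‖), ?_, fun j s => ?_, fun j => ?_⟩
      · have : 0 ≤ ∑ j, (‖f j‖ + ‖∫ s, f j s ∂(μ.map proj)‖) :=
          Finset.sum_nonneg fun j _ => by positivity
        linarith
      · have h1 := Finset.single_le_sum (f := fun j => ‖f j‖ + ‖∫ s, f j s ∂(μ.map proj)‖)
          (fun i _ => by positivity) (Finset.mem_univ j)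
        have h2 := (f j).norm_coe_le_norm s
        have h4 := norm_nonneg (∫ s, f j s ∂(μ.map proj))
        linarith
      · have h1 := Finset.single_le_sum (f := fun j => ‖f j‖ + ‖∫ s, f j s ∂(μ.map proj)‖)
          (fun i _ => by positivity) (Finset.mem_univ j)
        have h3 := norm_nonneg (f j)
        linarith
    obtain ⟨w, hw0, hw⟩ : ∃ w : ℝ, 0 < w ∧
        2 * M * (n * (√(M * w) * (2 * C) ^ n) / ε) ≤ ε := by
      have hlim : Filter.Tendsto (fun w : ℝ => 2 * M * (n * (√(M * w) * (2 * C) ^ n) / ε))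
          (nhdsWithin 0 (Set.Ioi 0)) (nhds (2 * M * (n * (√(M * 0) * (2 * C) ^ n) / ε))) := by
        apply Filter.Tendsto.mono_left _ nhdsWithin_le_nhds
        apply Continuous.tendsto
        fun_prop
      rw [mul_zero, Real.sqrt_zero, zero_mul, mul_zero, zero_div, mul_zero] at hlim
      have h1 := (hlim.eventually_lt_const hε).and self_mem_nhdsWithin
      obtain ⟨w, h2, h3⟩ := h1.exists
      exact ⟨w, h3, h2.le⟩
    have h1 : ∀ᶠ i in atTop, ∀ j, ∀ χ : G i →* ℂ,
        ‖W χ fun g => f j (x i g) - ∫ s, f j s ∂(μ.map proj)‖ ≤ w := by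
      rw [eventually_all]
      intro j
      exact hW (f j) w hw0
    filter_upwards [h1] with i hi B hB
    have h2 := count_all (F := fun j g => f j (x i g)) (m := fun j => ∫ s, f j s ∂(μ.map proj)) hC1
      (fun j g => hC j _) hCm hB hi hε
    simp only [orbitMean_eq]
    refine h2.trans ?_
    gcongr
  refine ⟨?_, hT, hA⟩
  intro M f ε hε
  obtain ⟨η, hη0, hη1, hηε⟩ : ∃ η : ℝ, 0 < η ∧ η < 1 ∧ η ≤ ε :=
    ⟨min ε (1 / 2), by positivity, lt_of_le_of_lt (min_le_right _ _) (by norm_num), min_le_left _ _⟩
  filter_upwards [hA 1 M (fun _ => f) η hη0] with i hi B hB y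
  by_contra hcon
  push Not at hcon
  have hall : {a : Fin 1 → G i | ∃ y : G i,
      η < ‖orbitMean (fun _ => f) (x i) B y a - expected (μ.map proj) fun _ : Fin 1 => f‖ ∨
      η < ‖orbitMean (fun _ => f) (x i) B y (fun j => (a j)⁻¹) -
        expected (μ.map proj) fun _ : Fin 1 => f‖} = Set.univ := by
    rw [Set.eq_univ_iff_forall]
    intro b
    rw [Set.mem_ofPred_eq]
    refine ⟨y * (b 0)⁻¹, Or.inl ?_⟩
    have e1 : (expected (μ.map proj) fun _ : Fin 1 => f) = ∫ s, f s ∂(μ.map proj) := by
      unfold expected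
      rw [Fin.prod_univ_one]
    have e2 : orbitMean (fun _ : Fin 1 => f) (x i) B (y * (b 0)⁻¹) b =
        (∑ᶠ b : B, f (x i (y * b))) / Nat.card B := by
      unfold orbitMean
      congr 1
      refine finsum_congr fun c => ?_
      rw [Fin.prod_univ_one]
      congr 2
      rw [mul_right_comm, inv_mul_cancel_right]
    rw [e1, e2]
    exact lt_of_le_of_lt hηε hcon
  have h2 := hi B hB
  rw [hall, Set.ncard_univ, Nat.card_eq_fintype_card, Fintype.card_fun, Fintype.card_fin, pow_one,
    pow_one] at h2
  have h3 : (0 : ℝ) < (Fintype.card (G i) : ℝ) := card_pos'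
  nlinarith

end Pool.Agent.Results.MP_9177b7_ag.OneSplitPrime
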