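import Pool.Agent.Q12.CM.Kap

/-!
# Small Galois orbits of special points of products of Shimura varieties

`S j`, `j < n`, are components of Shimura varieties (of different Shimura data, possibly), `Y j` is the
`p`-adic cover of `S j`, a space with a continuous action of `G j (ℚ_p)` and with the invariant probability
measure `μ j`, `proj j : Y j → S j` is the projection.  For tori `T j` which split at `p` the special points
of `S j` which belong to `T j` come in packets: a finite abelian group (a quotient of `T j (𝔸_f)`) acts simply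
transitively on a packet, and the packet is the image of the orbit `X : Ω → Y j` of the compact group
`Ω = T j (ℚ) \ T j (𝔸_f) / (K^p ∩ T j (𝔸_f^p))` in `Y j`.  After a translation by an element of `K_p` the
multiplication by an element of `T j (ℚ_p)` becomes on `Y j` the action `a j` of a fixed element of
`G j (ℚ_p)`, which generates an unbounded group and is mixing for `μ j` (Howe - Moore).

Let `c j` be the class in the group of the packet of the element `m j (p)` of `T j (ℚ_p)`, where `m j` is the
cocharacter of the special point.  By the reciprocity law it is in the image of the decomposition group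
at a place over `p` of the reflex field.  If `L` is any number field, of any degree, with a place over `p`
with a completion of degree at most `R` over `ℚ_p`, then the image of the absolute Galois group of `L` in the
group of the packet contains a power `c j ^ r` with `1 ≤ r ≤ R`.

The theorem: if the (whole, untwisted) packets are equidistributed in the `Y j`, then for all subgroups `B` of
the products of the groups whose projections to the factors contain such powers `c j ^ r`, without any
condition on the index of `B`, the `B`-orbits of almost all points of the products of the packets are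
equidistributed in `S 1 × ... × S n`.
-/

set_option autoImplicit false

namespace Pool.Agent.Results.MP_9177b7_ag.SmallOrbits

open MeasureTheory Filter Topology Pool.Agent.Q12.CM
open scoped BoundedContinuousFunction ComplexConjugate

section

variable {Y S : Type} [TopologicalSpace Y] [MeasurableSpace Y]

/-- The map `a` is weakly mixing for `μ`, tested on bounded continuous functions. -/
def WeaklyMixing (μ : Measure Y) (a : Y → Y) : Prop :=
  ∀ F : Y →ᵇ ℂ, Tendsto (fun k : ℕ => (∑ l ∈ Finset.range k,
    ‖∫ y, F (a^[l] y) * conj (F y) ∂μ - (∫ y, F y ∂μ) * conj (∫ y, F y ∂μ)‖) / k) atTop (𝓝 0)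

/-- A lift of the packet `x : G → S` to `Y`: a map `X : Ω → Y` from a probability space `(Ω, P)` with a
map `q : Ω → G` with uniform distribution such that `proj (X ω) = x (q ω)`, and a measure-preserving map `t`
of `Ω` which corresponds to `a` in `Y` and to the multiplication by `c` in `G`. -/
structure Lift (a : Y → Y) (proj : Y → S) {G : Type} [CommGroup G] [Fintype G] (x : G → S) where
  /-- the compact group -/
  Ω : Type
  [meas : MeasurableSpace Ω]
  /-- its Haar measure -/
  P : Measure Ω
  [prob : IsProbabilityMeasure P]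
  /-- the orbit map -/
  X : Ω → Y
  /-- the multiplication by an element -/
  t : Ω → Ω
  /-- the projection to the finite group -/
  q : Ω → G
  /-- the image of the element -/
  c : G
  measurable : Measurable X
  preserves : MeasurePreserving t P P
  fibre : ∀ g, MeasurableSet (q ⁻¹' {g})
  uniform : ∀ g, P.real (q ⁻¹' {g}) = 1 / Fintype.card G
  shift : ∀ ω, X (t ω) = a (X ω)
  factor : ∀ ω, q (t ω) = c * q ω
  proj_eq : ∀ ω, proj (X ω) = x (q ω)

attribute [instance] Lift.meas Lift.prob

/-- The lifted packets are equidistributed in `Y` (no twists, no subgroups). -/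
def Equidistributed (μ : Measure Y) {a : Y → Y} {proj : Y → S} {G : ℕ → Type} [∀ i, CommGroup (G i)]
    [∀ i, Fintype (G i)] {x : ∀ i, G i → S} (L : ∀ i, Lift a proj (x i)) : Prop :=
  ∀ F : Y →ᵇ ℂ, Tendsto (fun i => ∫ ω, F ((L i).X ω) ∂(L i).P) atTop (𝓝 (∫ y, F y ∂μ))

end

section

variable {n : ℕ} {S : Fin n → Type} [∀ j, TopologicalSpace (S j)] [∀ j, MeasurableSpace (S j)]

/-- The projection of the subgroup `B` of the product to the `j`-th factor. -/
def projection {G : Fin n → Type} [∀ j, CommGroup (G j)] (B : Subgroup (∀ j, G j)) (j : Fin n) :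
    Subgroup (G j) :=
  B.map (Pi.evalMonoidHom G j)

/-- The average of `f 1 ⊗ ... ⊗ f n` over the points with the coordinates
`x j (y j * b j * (g j) ^ (s j))`, `b ∈ B`. -/
noncomputable def orbitMean {G : Fin n → Type} [∀ j, CommGroup (G j)] (f : ∀ j, S j →ᵇ ℂ)
    (x : ∀ j, G j → S j) (B : Subgroup (∀ j, G j)) (y : ∀ j, G j) (s : Fin n → ℤˣ) (g : ∀ j, G j) : ℂ :=
  (∑ᶠ b : B, ∏ j, f j (x j (y j * b.1 j * g j ^ (s j : ℤ)))) / Nat.card B

/-- The integral of `f 1 ⊗ ... ⊗ f n` for the product measure. -/
noncomputable def expected (μ : ∀ j, Measure (S j)) (f : ∀ j, S j →ᵇ ℂ) : ℂ := ∏ j, ∫ s, f j s ∂(μ j)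

/-- Almost all orbits of the points of the products of the packets are equidistributed, for all subgroups
`B` such that for every `j` one of the powers `c j ^ r`, `1 ≤ r ≤ R`, is in the projection of `B` to the
`j`-th factor (there is no condition on the index of `B`), all translates `y` and all signs `s`. -/
def AlmostAllPoints (μ : ∀ j, Measure (S j)) (G : Fin n → ℕ → Type) [∀ j i, CommGroup (G j i)]
    [∀ j i, Fintype (G j i)] (x : ∀ j i, G j i → S j) (c : ∀ j i, G j i) : Prop :=
  ∀ (R : ℕ) (f : ∀ j, S j →ᵇ ℂ) (ε : ℝ), 0 < ε → ∀ᶠ i in atTop, ∀ B : Subgroup (∀ j, G j i),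
    (∀ j, ∃ r, 1 ≤ r ∧ r ≤ R ∧ c j i ^ r ∈ projection B j) → ∀ (y : ∀ j, G j i) (s : Fin n → ℤˣ),
      ({g : ∀ j, G j i | ε < ‖orbitMean f (fun j => x j i) B y s g - expected μ f‖}.ncard : ℝ) ≤
        ε * ∏ j, (Fintype.card (G j i) : ℝ)

end

/-- **Small orbits of almost all special points of products.**  Let `Y j → S j`, `j < n`, be continuous maps,
`μ j` probability measures on the `Y j`, `a j` continuous weakly mixing measure-preserving maps of the `Y j`,
and `x j i : G j i → S j` sequences of packets with lifts to the `Y j`.  If the lifts are equidistributed in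
the `Y j`, then for all subgroups `B` of the products of the `G j i` whose projections contain powers
`c j i ^ r`, `1 ≤ r ≤ R`, of the classes of the lifts, the `B`-orbits of almost all points of the products of
the packets are equidistributed in the product of the `S j` (with the images of the `μ j`). -/
theorem result {n : ℕ} {Y S : Fin n → Type} [∀ j, TopologicalSpace (Y j)] [∀ j, MeasurableSpace (Y j)]
    [∀ j, BorelSpace (Y j)] [∀ j, TopologicalSpace (S j)] [∀ j, MeasurableSpace (S j)]
    [∀ j, BorelSpace (S j)] (μ : ∀ j, Measure (Y j)) [∀ j, IsProbabilityMeasure (μ j)]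
    (a : ∀ j, Y j → Y j) (ha : ∀ j, Continuous (a j)) (hμ : ∀ j, MeasurePreserving (a j) (μ j) (μ j))
    (hmix : ∀ j, WeaklyMixing (μ j) (a j)) (proj : ∀ j, Y j → S j) (hproj : ∀ j, Continuous (proj j))
    (G : Fin n → ℕ → Type) [∀ j i, CommGroup (G j i)] [∀ j i, Fintype (G j i)]
    (x : ∀ j i, G j i → S j) (L : ∀ j i, Lift (a j) (proj j) (x j i))
    (hL : ∀ j, Equidistributed (μ j) (L j)) :
    AlmostAllPoints (fun j => (μ j).map (proj j)) G x (fun j i => (L j i).c) := by
  classical
  intro R f ε hε
  have hint : ∀ j, ∫ s, f j s ∂((μ j).map (proj j)) = ∫ y, f j (proj j y) ∂(μ j) := fun j =>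
    integral_map (hproj j).measurable.aemeasurable (f j).continuous.measurable.aestronglyMeasurable
  have hL' : ∀ j i, Lifts (a j) (proj j) (x j i) (L j i).P (L j i).X (L j i).t (L j i).q (L j i).c :=
    fun j i => ⟨(L j i).measurable, (L j i).preserves, (L j i).fibre, (L j i).uniform, (L j i).shift,
      (L j i).factor, (L j i).proj_eq⟩
  obtain ⟨C, hC1, hC, hCm⟩ : ∃ C : ℝ, 1 ≤ C ∧ (∀ j, ‖f j‖ ≤ C) ∧
      ∀ j, ‖∫ y, f j (proj j y) ∂(μ j)‖ ≤ C := by
    refine ⟨1 + ∑ j, (‖f j‖ + ‖∫ y, f j (proj j y) ∂(μ j)‖), ?_, fun j => ?_, fun j => ?_⟩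
    · have : 0 ≤ ∑ j, (‖f j‖ + ‖∫ y, f j (proj j y) ∂(μ j)‖) := Finset.sum_nonneg fun j _ => by positivity
      linarith
    · have h1 := Finset.single_le_sum (f := fun j => ‖f j‖ + ‖∫ y, f j (proj j y) ∂(μ j)‖)
        (fun i _ => by positivity) (Finset.mem_univ j)
      have h4 := norm_nonneg (∫ y, f j (proj j y) ∂(μ j))
      linarith
    · have h1 := Finset.single_le_sum (f := fun j => ‖f j‖ + ‖∫ y, f j (proj j y) ∂(μ j)‖)
        (fun i _ => by positivity) (Finset.mem_univ j)
      have h3 := norm_nonneg (f j)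
      linarith
  have hC0 : 0 < C := by linarith
  obtain ⟨δ, hδ0, hδ⟩ : ∃ δ : ℝ, 0 < δ ∧
      (n : ℝ) ^ 2 * ((√δ * (2 * C)) * (2 * C) ^ (2 * n)) / ε ^ 2 ≤ ε := by
    have hp : 0 < (n : ℝ) ^ 2 * (2 * C) ^ (2 * n) + 1 := by positivity
    refine ⟨(ε ^ 3 / ((n : ℝ) ^ 2 * (2 * C) ^ (2 * n) + 1) / (2 * C)) ^ 2, by positivity, ?_⟩
    rw [Real.sqrt_sq (by positivity), div_mul_cancel₀ _ (by positivity), div_le_iff₀ (by positivity)]
    calc (n : ℝ) ^ 2 * (ε ^ 3 / ((n : ℝ) ^ 2 * (2 * C) ^ (2 * n) + 1) * (2 * C) ^ (2 * n))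
        = ε ^ 3 * (((n : ℝ) ^ 2 * (2 * C) ^ (2 * n)) / ((n : ℝ) ^ 2 * (2 * C) ^ (2 * n) + 1)) := by ring
      _ ≤ ε ^ 3 * 1 := by
          refine mul_le_mul_of_nonneg_left ?_ (by positivity)
          rw [div_le_one hp]
          linarith
      _ = ε * ε ^ 2 := by ring
  have h1 : ∀ᶠ i in atTop, ∀ j, ∀ H : Subgroup (G j i),
      (∃ r, 1 ≤ r ∧ r ≤ R ∧ (L j i).c ^ r ∈ H) →
      (∑ h : H, ‖AC (fun g => f j (x j i g) - ∫ y, f j (proj j y) ∂(μ j)) (h : G j i)‖) /
        Fintype.card H ≤ √δ * (‖f j‖ + ‖∫ y, f j (proj j y) ∂(μ j)‖) := by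
    rw [eventually_all]
    intro j
    exact small_of_mixing (ha j) (hμ j) (hmix j) (hproj j) (hL' j) (hL j) (f j) R hδ0
  filter_upwards [h1] with i hi B hB y s
  have h2 := K_count (F := fun j g => f j (x j i g)) (m := fun j => ∫ y, f j (proj j y) ∂(μ j))
    (κ := √δ * (2 * C)) hC1 (fun j g => ((f j).norm_coe_le_norm _).trans (hC j)) hCm B
    (fun j => (hi j _ (hB j)).trans (mul_le_mul_of_nonneg_left (by linarith [hC j, hCm j])
      (Real.sqrt_nonneg _))) hε y s
  have h3 : expected (fun j => (μ j).map (proj j)) f = ∏ j, ∫ y, f j (proj j y) ∂(μ j) :=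
    Finset.prod_congr rfl fun j _ => hint j
  rw [h3]
  refine le_trans (le_of_eq ?_) (h2.trans ?_)
  · rfl
  · have : (0 : ℝ) ≤ ∏ j, (Fintype.card (G j i) : ℝ) := by positivity
    gcongr

end Pool.Agent.Results.MP_9177b7_ag.SmallOrbits
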