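import Pool.Agent.Q12.CM.Two

/-!
# Almost all special points of the powers of a Shimura variety

`S` is a component of a Shimura variety with its invariant probability measure `μ`.  The special points of
`S` come in packets: a packet is a set of special points on which a finite abelian group `G` (a quotient of
`T(𝔸_f)` for a torus `T`) acts simply transitively, and the Galois orbits are the orbits of a subgroup `B` of
`G` (the image of the reciprocity map) or, over smaller fields, unions of translates of such orbits and of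
their inverses.  After the choice of a point of the packet it is a map `x : G → S`.  The points
`(x (a 1), ..., x (a n))`, `a ∈ G^n`, are special points of the component `S^n` of the Shimura variety of
the power of the Shimura datum.

The theorem says that, for every sequence of packets, the equidistribution of the orbits of almost all the
special points in the powers `S^n` for all `n`, the same for `S × S` and the orbits under the whole group
`G`, and the twisted equidistribution in `S` itself are equivalent.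
-/

set_option autoImplicit false

namespace Pool.Agent.Results.MP_9177b7_ag.TwistedEquivalence

open MeasureTheory Filter Pool.Agent.Q12.CM
open scoped BoundedContinuousFunction ComplexConjugate

variable {S : Type} [TopologicalSpace S] [MeasurableSpace S]

/-- The average of `f 1 ⊗ ... ⊗ f n` over the points `(x (y * b * a 1), ..., x (y * b * a n))`, `b ∈ B`. -/
noncomputable def orbitMean {G : Type} [CommGroup G] {n : ℕ} (f : Fin n → S →ᵇ ℂ) (x : G → S)
    (B : Subgroup G) (y : G) (a : Fin n → G) : ℂ :=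
  (∑ᶠ b : B, ∏ j, f j (x (y * b * a j))) / Nat.card B

/-- The integral of `f 1 ⊗ ... ⊗ f n` for the product measure. -/
noncomputable def expected {n : ℕ} (μ : Measure S) (f : Fin n → S →ᵇ ℂ) : ℂ := ∏ j, ∫ s, f j s ∂μ

/-- The twisted equidistribution of the packets `x i : G i → S` in `S`: the averages of `χ(g) f(x(g))`
over the packets tend to `∫ f dμ` for `χ = 1` and to `0` for `χ ≠ 1`, uniformly in the characters `χ`. -/
def Twisted (μ : Measure S) (G : ℕ → Type) [∀ i, CommGroup (G i)] [∀ i, Fintype (G i)]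
    (x : ∀ i, G i → S) : Prop :=
  ∀ f : S →ᵇ ℂ, ∀ ε : ℝ, 0 < ε → ∀ᶠ i in atTop, ∀ χ : G i →* ℂ,
    (χ = 1 → ‖(∑ g, χ g * f (x i g)) / Fintype.card (G i) - ∫ s, f s ∂μ‖ ≤ ε) ∧
    (χ ≠ 1 → ‖(∑ g, χ g * f (x i g)) / Fintype.card (G i)‖ ≤ ε)

/-- Almost all orbits of the whole groups `G i` in `S × S` are equidistributed. -/
def AlmostAllPairs (μ : Measure S) (G : ℕ → Type) [∀ i, CommGroup (G i)] [∀ i, Fintype (G i)]
    (x : ∀ i, G i → S) : Prop :=
  ∀ f : Fin 2 → S →ᵇ ℂ, ∀ ε : ℝ, 0 < ε → ∀ᶠ i in atTop,
    ({a : Fin 2 → G i | ε < ‖orbitMean f (x i) ⊤ 1 a - expected μ f‖}.ncard : ℝ) ≤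
      ε * (Fintype.card (G i) : ℝ) ^ 2

/-- Almost all orbits of the special points in all powers `S^n` are equidistributed, for all subgroups of
index at most `M`, all translates and the inverses. -/
def AlmostAllPoints (μ : Measure S) (G : ℕ → Type) [∀ i, CommGroup (G i)] [∀ i, Fintype (G i)]
    (x : ∀ i, G i → S) : Prop :=
  ∀ (n M : ℕ) (f : Fin n → S →ᵇ ℂ) (ε : ℝ), 0 < ε → ∀ᶠ i in atTop, ∀ B : Subgroup (G i), B.index ≤ M →
    ({a : Fin n → G i | ∃ y : G i, ε < ‖orbitMean f (x i) B y a - expected μ f‖ ∨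
      ε < ‖orbitMean f (x i) B y (fun j => (a j)⁻¹) - expected μ f‖}.ncard : ℝ) ≤
      ε * (Fintype.card (G i) : ℝ) ^ n

theorem orbitMean_eq {G : Type} [CommGroup G] {n : ℕ} (f : Fin n → S →ᵇ ℂ) (x : G → S)
    (B : Subgroup G) (y : G) (a : Fin n → G) :
    orbitMean f x B y a = ES (fun j g => f j (x g)) B (fun j => y * a j) := by
  unfold orbitMean ES
  congr 1
  refine finsum_congr fun b => Finset.prod_congr rfl fun j _ => ?_
  rw [← mul_assoc, mul_comm y]

/-- **Almost all special points and twisted equidistribution.**  Let `S` be a space with a probability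
measure `μ` and `x i : G i → S` a sequence of packets.  The following are equivalent: the twisted
equidistribution in `S`; the equidistribution of almost all orbits in `S × S`; the equidistribution of the
orbits of almost all special points of the packets in all powers `S^n`. -/
theorem result {S : Type} [TopologicalSpace S] [MeasurableSpace S] [BorelSpace S] (μ : Measure S)
    [IsProbabilityMeasure μ] (G : ℕ → Type) [∀ i, CommGroup (G i)] [∀ i, Fintype (G i)]
    (x : ∀ i, G i → S) :
    List.TFAE [Twisted μ G x, AlmostAllPairs μ G x, AlmostAllPoints μ G x] := by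
  classical
  tfae_have 1 → 3 := by
    intro h n M f ε hε
    obtain ⟨C, hC1, hC, hCm⟩ : ∃ C : ℝ, 1 ≤ C ∧ (∀ j s, ‖f j s‖ ≤ C) ∧ ∀ j, ‖∫ s, f j s ∂μ‖ ≤ C := by
      refine ⟨1 + ∑ j, (‖f j‖ + ‖∫ s, f j s ∂μ‖), ?_, fun j s => ?_, fun j => ?_⟩
      · have : 0 ≤ ∑ j, (‖f j‖ + ‖∫ s, f j s ∂μ‖) := Finset.sum_nonneg fun j _ => by positivity
        linarith
      · have h1 := Finset.single_le_sum (f := fun j => ‖f j‖ + ‖∫ s, f j s ∂μ‖)
          (fun i _ => by positivity) (Finset.mem_univ j)
        have h2 := (f j).norm_coe_le_norm s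
        have h4 := norm_nonneg (∫ s, f j s ∂μ)
        linarith
      · have h1 := Finset.single_le_sum (f := fun j => ‖f j‖ + ‖∫ s, f j s ∂μ‖)
          (fun i _ => by positivity) (Finset.mem_univ j)
        have h3 := norm_nonneg (f j)
        linarith
    obtain ⟨w, hw0, hw⟩ : ∃ w : ℝ, 0 < w ∧
        2 * M * (n * (√(M * w) * (2 * C) ^ n) / ε) ≤ ε := by
      have hlim : Filter.Tendsto (fun w : ℝ => 2 * M * (n * (√(M * w) * (2 * C) ^ n) / ε))
          (nhdsWithin 0 (Set.Ioi 0)) (nhds (2 * M * (n * (√(M * 0) * (2 * C) ^ n) / ε))) := by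
        apply Filter.Tendsto.mono_left _ nhdsWithin_le_nhds
        apply Continuous.tendsto
        fun_prop
      rw [mul_zero, Real.sqrt_zero, zero_mul, mul_zero, zero_div, mul_zero] at hlim
      have h1 := (hlim.eventually_lt_const hε).and self_mem_nhdsWithin
      obtain ⟨w, h2, h3⟩ := h1.exists
      exact ⟨w, h3, h2.le⟩
    have h1 : ∀ᶠ i in atTop, ∀ j, ∀ χ : G i →* ℂ, ‖W χ fun g => f j (x i g) - ∫ s, f j s ∂μ‖ ≤ w := by
      rw [eventually_all]
      intro j
      filter_upwards [h (f j) w hw0] with i hi χ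
      rw [W_sub]
      obtain ⟨h2, h3⟩ := hi χ
      split_ifs with hχ
      · exact h2 hχ
      · rw [sub_zero]
        exact h3 hχ
    filter_upwards [h1] with i hi B hB
    have h2 := count_all (F := fun j g => f j (x i g)) (m := fun j => ∫ s, f j s ∂μ) hC1
      (fun j g => hC j _) hCm hB hi hε
    simp only [orbitMean_eq]
    refine h2.trans ?_
    gcongr
  tfae_have 3 → 2 := by
    intro h f ε hε
    filter_upwards [h 2 1 f ε hε] with i hi
    refine le_trans ?_ (hi ⊤ (by rw [Subgroup.index_top]))
    have hsub : {a : Fin 2 → G i | ε < ‖orbitMean f (x i) ⊤ 1 a - expected μ f‖} ⊆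
        {a : Fin 2 → G i | ∃ y : G i, ε < ‖orbitMean f (x i) ⊤ y a - expected μ f‖ ∨
          ε < ‖orbitMean f (x i) ⊤ y (fun j => (a j)⁻¹) - expected μ f‖} :=
      fun a ha => ⟨1, Or.inl ha⟩
    exact_mod_cast Set.ncard_le_ncard hsub (Set.toFinite _)
  tfae_have 2 → 1 := by
    intro h f ε hε
    have hne : ∀ i, (0 : ℝ) < Fintype.card (G i) := fun i => card_pos'
    -- the trivial character
    have hA : ∀ᶠ i in atTop, ‖(∑ g, f (x i g)) / Fintype.card (G i) - ∫ s, f s ∂μ‖ ≤ ε := by
      obtain ⟨η, hη0, hη1, hηε⟩ : ∃ η : ℝ, 0 < η ∧ η < 1 ∧ η ≤ ε :=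
        ⟨min ε (1 / 2), by positivity, lt_of_le_of_lt (min_le_right _ _) (by norm_num), min_le_left _ _⟩
      filter_upwards [h ![f, 1] η hη0] with i hi
      by_contra hcon
      push Not at hcon
      have hall : {a : Fin 2 → G i | η < ‖orbitMean ![f, 1] (x i) ⊤ 1 a - expected μ ![f, 1]‖} =
          Set.univ := by
        rw [Set.eq_univ_iff_forall]
        intro a
        rw [Set.mem_ofPred_eq]
        have e1 : expected μ ![f, (1 : S →ᵇ ℂ)] = ∫ s, f s ∂μ := by
          unfold expected
          rw [Fin.prod_univ_two]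
          simp
        have e2 : orbitMean ![f, (1 : S →ᵇ ℂ)] (x i) ⊤ 1 a = (∑ g, f (x i g)) / Fintype.card (G i) := by
          unfold orbitMean
          rw [finsum_eq_sum_of_fintype, Subgroup.card_top, Nat.card_eq_fintype_card]
          congr 1
          have h1 : ∑ b : (⊤ : Subgroup (G i)), ∏ j, (![f, (1 : S →ᵇ ℂ)] : Fin 2 → S →ᵇ ℂ) j (x i (1 * b * a j)) =
              ∑ b : G i, ∏ j, (![f, (1 : S →ᵇ ℂ)] : Fin 2 → S →ᵇ ℂ) j (x i (1 * b * a j)) :=
            Fintype.sum_equiv Subgroup.topEquiv.toEquiv _ _ fun _ => rfl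
          rw [h1]
          refine Fintype.sum_equiv (Equiv.mulRight (a 0)) _ _ fun b => ?_
          rw [Fin.prod_univ_two]
          simp
        rw [e1, e2]
        exact lt_of_le_of_lt hηε hcon
      rw [hall, Set.ncard_univ, Nat.card_eq_fintype_card, Fintype.card_fun, Fintype.card_fin] at hi
      push_cast at hi
      have h3 : (0 : ℝ) < (Fintype.card (G i) : ℝ) ^ 2 := by have := hne i; positivity
      nlinarith
    -- the other characters
    obtain ⟨C, hC0, hC, hCm⟩ : ∃ C : ℝ, 0 ≤ C ∧ (∀ s, ‖f s‖ ≤ C) ∧ ‖∫ s, f s ∂μ‖ ≤ C := by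
      refine ⟨‖f‖ + ‖∫ s, f s ∂μ‖, by positivity, fun s => ?_, ?_⟩
      · have h2 := f.norm_coe_le_norm s
        have h4 := norm_nonneg (∫ s, f s ∂μ)
        linarith
      · have h3 := norm_nonneg f
        linarith
    obtain ⟨η, hη0, hη⟩ : ∃ η : ℝ, 0 < η ∧ η * (1 + 2 * C ^ 2) ≤ ε ^ 2 :=
      ⟨ε ^ 2 / (1 + 2 * C ^ 2), by positivity, le_of_eq (div_mul_cancel₀ _ (by positivity))⟩
    have hB : ∀ᶠ i in atTop, ∀ χ : G i →* ℂ, χ ≠ 1 → ‖W χ fun g => f (x i g)‖ ≤ ε := by
      filter_upwards [h ![f, star f] η hη0] with i hi χ hχ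
      have h1 : ‖W χ fun g => f (x i g)‖ ^ 2 ≤ η * (1 + 2 * C ^ 2) := by
        refine W_of_pairs (m := ∫ s, f s ∂μ) (fun g => hC _) hCm hη0.le ?_ χ hχ
        refine le_trans (le_of_eq ?_) hi
        congr 2
        ext a
        rw [Set.mem_ofPred_eq, Set.mem_ofPred_eq, orbitMean_eq]
        have e1 : expected μ ![f, star f] = (∫ s, f s ∂μ) * conj (∫ s, f s ∂μ) := by
          unfold expected
          rw [Fin.prod_univ_two]
          simp only [Matrix.cons_val_zero, Matrix.cons_val_one]
          congr 1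
          rw [← integral_conj]
          rfl
        have e2 : ES (fun j g => (![f, star f] : Fin 2 → S →ᵇ ℂ) j (x i g)) ⊤ (fun j => 1 * a j) =
            ES ![fun g => f (x i g), fun g => conj (f (x i g))] ⊤ a := by
          congr 1
          · funext j g
            fin_cases j
            · rfl
            · rfl
          · funext j
            rw [one_mul]
        rw [e1, e2]
      have h2 : ‖W χ fun g => f (x i g)‖ ^ 2 ≤ ε ^ 2 := h1.trans hη
      exact (abs_le_of_sq_le_sq' h2 hε.le).2
    filter_upwards [hA, hB] with i h1 h2 χ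
    refine ⟨fun hχ => ?_, fun hχ => h2 χ hχ⟩
    subst hχ
    simpa using h1
  tfae_finish

end Pool.Agent.Results.MP_9177b7_ag.TwistedEquivalence
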